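import Pool.Agent.Helper85.LN2.Goals
import Pool.Agent.Helper31.LN.CERTA
import Pool.Agent.Helper89.LN.PRES

/-! # Project LN2 (MP_d0c558_al): CERTM, existence of second certificates -/

namespace Pool.Agent.Helper42.LN2

open Pool.Agent.Helper85.LN Pool.Agent.Helper85.LN2

section

variable {Q : Type} {H : Type*} [Group H]

theorem ev_cons (γ : Q → H) (s : S Q) (w : List (S Q)) :
    ev γ (s :: w) = cond s.2 (γ s.1) (γ s.1)⁻¹ * ev γ w := by
  simp [ev]

theorem ev_nil (γ : Q → H) : ev γ [] = 1 := rfl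

theorem ev_app (γ : Q → H) (u v : List (S Q)) : ev γ (u ++ v) = ev γ u * ev γ v := by
  simp [ev]

theorem lift_mk (γ : Q → H) (w : List (S Q)) :
    FreeGroup.lift γ (FreeGroup.mk w) = ev γ w := by
  induction w with
  | nil => rfl
  | cons s w ih =>
    have h1 : (FreeGroup.mk (s :: w) : FreeGroup Q) = FreeGroup.mk [s] * FreeGroup.mk w :=
      (FreeGroup.mul_mk (L₁ := [s]) (L₂ := w)).symm
    rw [h1, map_mul, ih, ev_cons]
    congr 1
    obtain ⟨q, b⟩ := s
    rw [FreeGroup.lift_mk]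
    cases b <;> simp

theorem ev_iw (γ : Q → H) (w : List (S Q)) : ev γ (iw w) = (ev γ w)⁻¹ := by
  rw [← lift_mk, ← lift_mk, ← map_inv, FreeGroup.inv_mk]
  rfl

end

/-- the group of `EqvS R L` is a quotient of `F / [M, M]` if `L` generates `M` -/
theorem comm_le (hCG : S_CGRP) {m : ℕ} (R L : List (List (S (Fin m)))) :
    ∃ θK : Subgroup (FreeGroup (Fin m)), θK.Normal ∧ (∀ w, FreeGroup.mk w ∈ θK ↔ EqvS R L w []) ∧
      ⁅Subgroup.normalClosure {x | ∃ s ∈ L, FreeGroup.mk s = x},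
        Subgroup.normalClosure {x | ∃ s ∈ L, FreeGroup.mk s = x}⁆ ≤ θK := by
  obtain ⟨P, _, γ', hE, hsurj⟩ := hCG (Fin m) (EqvS R L) (EqvS.cong R L)
  obtain ⟨θ, hθ⟩ : ∃ θ : FreeGroup (Fin m) →* P, ∀ w, θ (FreeGroup.mk w) = ev γ' w :=
    ⟨FreeGroup.lift γ', lift_mk γ'⟩
  refine ⟨θ.ker, inferInstance, fun w => ?_, ?_⟩
  · rw [MonoidHom.mem_ker, hθ, hE]
    rfl
  · obtain ⟨T, hT⟩ : ∃ T : Set (FreeGroup (Fin m)), T = {x | ∃ s ∈ L, FreeGroup.mk s = x} :=
      ⟨_, rfl⟩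
    rw [← hT]
    -- two conjugates commute
    have h1 : ∀ x ∈ Group.conjugatesOfSet T, ∀ y ∈ Group.conjugatesOfSet T,
        θ x * θ y = θ y * θ x := by
      intro x hx y hy
      rw [Group.mem_conjugatesOfSet_iff] at hx hy
      obtain ⟨a, ha, hax⟩ := hx
      obtain ⟨b, hb, hby⟩ := hy
      obtain ⟨g, rfl⟩ := isConj_iff.1 hax
      obtain ⟨h, rfl⟩ := isConj_iff.1 hby
      rw [hT] at ha hb
      obtain ⟨s, hs, rfl⟩ := ha
      obtain ⟨s', hs', rfl⟩ := hb
      obtain ⟨c, hc⟩ : ∃ c, FreeGroup.mk c = g⁻¹ * h := Quot.exists_rep _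
      have h2 := (hE _ _).1 (EqvS.kap (R := R) hs hs' c)
      have h3 : h = g * FreeGroup.mk c := by rw [hc]; group
      rw [kap] at h2
      simp only [ev_app, ev_iw, ev_nil] at h2
      rw [h3]
      simp only [map_mul, map_inv, hθ]
      generalize θ g = G at *
      generalize ev γ' s = σ at *
      generalize ev γ' s' = τ at *
      generalize ev γ' c = C at *
      have h4 : σ * (C * τ * C⁻¹) = C * τ * C⁻¹ * σ := by
        have h5 : σ * (C * τ * C⁻¹) * (C * τ * C⁻¹ * σ)⁻¹ = 1 := by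
          rw [← h2]
          group
        exact mul_inv_eq_one.1 h5
      calc G * σ * G⁻¹ * (G * C * τ * (G * C)⁻¹) = G * (σ * (C * τ * C⁻¹)) * G⁻¹ := by group
        _ = G * (C * τ * C⁻¹ * σ) * G⁻¹ := by rw [h4]
        _ = _ := by group
    have h2 : ∀ x ∈ Subgroup.normalClosure T, ∀ y ∈ Group.conjugatesOfSet T,
        θ x * θ y = θ y * θ x := by
      intro x hx y hy
      have h3 : Subgroup.normalClosure T ≤ (Subgroup.centralizer {θ y}).comap θ := by
        rw [Subgroup.normalClosure, Subgroup.closure_le]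
        intro z hz
        rw [SetLike.mem_coe, Subgroup.mem_comap, Subgroup.mem_centralizer_singleton_iff]
        exact (h1 z hz y hy)
      have h4 := h3 hx
      rw [Subgroup.mem_comap, Subgroup.mem_centralizer_singleton_iff] at h4
      exact h4
    have h3 : ∀ x ∈ Subgroup.normalClosure T, ∀ y ∈ Subgroup.normalClosure T,
        θ x * θ y = θ y * θ x := by
      intro x hx y hy
      have h3 : Subgroup.normalClosure T ≤ (Subgroup.centralizer {θ x}).comap θ := by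
        conv_lhs => rw [Subgroup.normalClosure]
        rw [Subgroup.closure_le]
        intro z hz
        rw [SetLike.mem_coe, Subgroup.mem_comap, Subgroup.mem_centralizer_singleton_iff]
        exact (h2 x hx z hz).symm
      have h4 := h3 hy
      rw [Subgroup.mem_comap, Subgroup.mem_centralizer_singleton_iff] at h4
      exact h4.symm
    rw [Subgroup.commutator_le]
    intro x hx y hy
    rw [MonoidHom.mem_ker, map_commutatorElement, commutatorElement_eq_one_iff_mul_comm]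
    exact h3 x hx y hy

/-- presentations with commuting conjugates -/
theorem pres2 (hCG : S_CGRP) (hN : S_NOE) {m : ℕ} {H : Type} [Group H] (γ : Fin m → H)
    (hγ : Function.Surjective (FreeGroup.lift γ)) (K₀ A₂ : Subgroup H) [K₀.Normal]
    (hc : ∀ x ∈ K₀, ∀ y ∈ K₀, x * y = y * x) (hfp : Group.IsFinitelyPresented (H ⧸ K₀))
    (hK : K₀ ≤ A₂) (hi : A₂.index ≠ 0) (hA : ⁅A₂, A₂⁆ ≤ K₀) :
    ∃ R L : List (List (S (Fin m))), (∀ r ∈ R, ev γ r = 1) ∧ (∀ s ∈ L, ev γ s ∈ K₀) ∧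
      (∀ w, ev γ w = 1 → EqvS R L w []) ∧ ∀ w, ev γ w ∈ K₀ → Eqv (R ++ L) w [] := by
  obtain ⟨ψ, hψ⟩ : ∃ ψ : FreeGroup (Fin m) →* H, ψ = FreeGroup.lift γ := ⟨_, rfl⟩
  have hψw : ∀ w, ψ (FreeGroup.mk w) = ev γ w := by
    intro w
    rw [hψ, lift_mk]
  rw [← hψ] at hγ
  -- generators of the preimage of `K₀`
  obtain ⟨T, hT, hTM⟩ : (K₀.comap ψ).IsFinitelyNormallyGenerated := by
    obtain ⟨n, φ, hφ, hker⟩ := hfp.out
    have h1 := Pool.Agent.Helper89.LN.ker_fin φ hφ hker ((QuotientGroup.mk' K₀).comp ψ)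
      ((QuotientGroup.mk'_surjective K₀).comp hγ)
    have h2 : ((QuotientGroup.mk' K₀).comp ψ).ker = K₀.comap ψ := by
      ext x
      rw [MonoidHom.mem_ker, Subgroup.mem_comap]
      exact QuotientGroup.eq_one_iff _
    rwa [h2] at h1
  obtain ⟨R', hR', hRN, hNR⟩ := hN (FreeGroup (Fin m)) (K₀.comap ψ) ψ.ker (A₂.comap ψ) inferInstance
    inferInstance inferInstance ⟨T, hT, hTM.symm⟩ (MonoidHom.ker_le_comap ψ K₀)
    (by
      rw [Subgroup.commutator_le]
      intro x hx y hy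
      rw [MonoidHom.mem_ker, map_commutatorElement, commutatorElement_eq_one_iff_mul_comm]
      exact hc _ hx _ hy)
    (Subgroup.comap_mono hK)
    (by rwa [Subgroup.index_comap_of_surjective _ hγ])
    (by
      rw [Subgroup.commutator_le]
      intro x hx y hy
      rw [Subgroup.mem_comap, map_commutatorElement]
      exact hA (Subgroup.commutator_mem_commutator hx hy))
  obtain ⟨R, hRdef⟩ : ∃ R : List (List (S (Fin m))), R = hR'.toFinset.toList.map FreeGroup.toWord :=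
    ⟨_, rfl⟩
  obtain ⟨L, hLdef⟩ : ∃ L : List (List (S (Fin m))), L = hT.toFinset.toList.map FreeGroup.toWord :=
    ⟨_, rfl⟩
  have hRm : ∀ r, r ∈ R ↔ ∃ x ∈ R', x.toWord = r := by
    intro r
    rw [hRdef, List.mem_map]
    simp
  have hLm : ∀ r, r ∈ L ↔ ∃ x ∈ T, x.toWord = r := by
    intro r
    rw [hLdef, List.mem_map]
    simp
  have hTL : {x | ∃ s ∈ L, FreeGroup.mk s = x} = T := by
    ext x
    constructor
    · rintro ⟨s, hs, rfl⟩
      obtain ⟨y, hy, rfl⟩ := (hLm s).1 hs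
      rwa [FreeGroup.mk_toWord]
    · intro hx
      exact ⟨x.toWord, (hLm _).2 ⟨x, hx, rfl⟩, FreeGroup.mk_toWord⟩
  refine ⟨R, L, ?_, ?_, ?_, ?_⟩
  · intro r hr
    obtain ⟨x, hx, rfl⟩ := (hRm r).1 hr
    rw [← hψw, FreeGroup.mk_toWord]
    exact hRN hx
  · intro s hs
    obtain ⟨x, hx, rfl⟩ := (hLm s).1 hs
    rw [← hψw, FreeGroup.mk_toWord]
    have h1 : x ∈ K₀.comap ψ := by
      rw [← hTM]
      exact Subgroup.subset_normalClosure hx
    exact h1
  · intro w hw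
    obtain ⟨θK, hn, hθ, hle⟩ := comm_le hCG R L
    rw [hTL, hTM] at hle
    have h1 : ψ.ker ≤ θK := by
      rw [hNR]
      refine sup_le ?_ hle
      apply Subgroup.normalClosure_le_normal
      intro x hx
      rw [SetLike.mem_coe, ← FreeGroup.mk_toWord (x := x), hθ]
      exact EqvS.rel ((hRm _).2 ⟨x, hx, rfl⟩)
    apply (hθ w).1
    apply h1
    rw [MonoidHom.mem_ker, hψw, hw]
  · intro w hw
    have h1 : FreeGroup.mk w ∈ Subgroup.normalClosure T := by
      rw [hTM, Subgroup.mem_comap, hψw]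
      exact hw
    have h2 : Subgroup.normalClosure T ≤ Pool.Agent.Helper89.LN.eqvSub (R ++ L) := by
      have := Pool.Agent.Helper89.LN.eqvSub_normal (R ++ L)
      apply Subgroup.normalClosure_le_normal
      intro t ht
      exact ⟨t.toWord, FreeGroup.mk_toWord,
        Eqv.rel (List.mem_append_right _ ((hLm _).2 ⟨t, ht, rfl⟩))⟩
    obtain ⟨w', hw', hw''⟩ := h2 h1
    exact (Pool.Agent.Helper89.LN.eqv_of_mk hw'.symm).trans hw''

theorem ev_nil_word {Q : Type} {H : Type*} [Group H] (γ : Q → H) (q : Q) :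
    ev γ [(q, true)] = γ q := by
  rw [ev_cons, ev_nil, mul_one]
  rfl

theorem certm : S_CERTM := by
  classical
  intro hCG hG hNOE hFPQ m d A hLN hfin hM
  open Pool.Agent.Helper31.LN in
  -- as in `certa`
  have c1 : ∀ (g : A.G) (a : Fin d), actH A g a = a → se A g a = 1 → g = 1 := by
    intro g a hg hs
    have h3 := hLN g.1 g.2 [a] (fun w => by
      rw [List.singleton_append, g_apply, ← actH_apply, hg, hs]
      rfl)
    exact Subtype.ext h3
  have c2 : ∀ a : Fin d, ∃ E : Finset A.G, ∀ g : A.G, ∃ e ∈ E, ∃ h : A.G, actH A h a = a ∧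
      se A h a = e⁻¹ * g := by
    intro a
    obtain ⟨E, hE⟩ := hfin a
    refine ⟨E.subtype (· ∈ A.G), fun g => ?_⟩
    obtain ⟨e, he, heG, h, hh, hw⟩ := hE g.1 g.2
    refine ⟨⟨e, heG⟩, Finset.mem_subtype.2 he, ⟨h, hh⟩, ?_, ?_⟩
    · have h3 := g_apply A ⟨h, hh⟩ a []
      rw [actH_apply]
      have h4 := hw []
      rw [h3] at h4
      exact (List.cons.inj h4).1
    · apply Subtype.ext
      ext1 u
      have h3 := g_apply A ⟨h, hh⟩ a u
      have h4 := hw u
      rw [h3] at h4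
      exact (List.cons.inj h4).2
  have c3 : Subgroup.closure (Set.range (gm A)) = ⊤ := by
    rw [eq_top_iff]
    intro g _
    have h3 : g = ev (gm A) (wd A g) := Subtype.ext (by rw [ev_gm, wd_spec])
    rw [h3]
    exact ev_mem A _
  have c4 : ∀ (q : Fin m) (a : Fin d), gm A (A.tr q a) = se A (gm A q) a := by
    intro q a
    apply Subtype.ext
    rw [se_val A (gm A q) [(q, true)] (val_one A q)]
    have h3 : A.toWA.scw [(q, true)] a = [(A.tr q a, true)] := rfl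
    rw [h3, val_one]
  obtain ⟨k, B, t, l, b1, b2, b3⟩ := hG A.G m d (actH A) (se A) (gm A) A.tr
    (fun g h a => se_mul A g h a) c1 c2 c3 c4
  have hwd : ∀ g : A.G, ev (gm A) (wd A g) = g := fun g =>
    Subtype.ext (by rw [ev_gm, wd_spec])
  have hsurj : Function.Surjective (FreeGroup.lift (gm A)) := fun g =>
    ⟨FreeGroup.mk (wd A g), by rw [lift_mk, hwd]⟩
  -- the action on `Fin k`
  have bwell : ∀ u v, ev (gm A) u = ev (gm A) v → ∀ z, B.ltw u z = B.ltw v z := by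
    intro u v h z
    have h1 : ev (gm A) (iw v ++ u) = 1 := by
      rw [ev_app, ev_iw, h, inv_mul_cancel]
    have h2 := (b1 _ h1 z).1
    rw [WA.ltw_append] at h2
    rw [← B.ltw_iw' v (B.ltw u z), h2]
  obtain ⟨β, hβ⟩ : ∃ β : A.G →* Equiv.Perm (Fin k), ∀ w z, β (ev (gm A) w) z = B.ltw w z := by
    have hm : ∀ g h : A.G, ∀ z, B.ltw (wd A (g * h)) z = B.ltw (wd A g) (B.ltw (wd A h) z) := by
      intro g h z
      rw [← WA.ltw_append]
      apply bwell
      rw [ev_app, hwd, hwd, hwd]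
    have ho : ∀ z, B.ltw (wd A 1) z = z := by
      intro z
      exact (b1 _ (hwd 1) z).1
    refine ⟨{
      toFun := fun g => ⟨B.ltw (wd A g), B.ltw (wd A g⁻¹),
        fun a => by rw [← hm, inv_mul_cancel, ho], fun a => by rw [← hm, mul_inv_cancel, ho]⟩
      map_one' := Equiv.ext fun a => ho a
      map_mul' := fun g h => Equiv.ext fun a => hm g h a }, fun w z => ?_⟩
    exact bwell _ _ (hwd _) z
  -- the subgroups
  obtain ⟨K, A₁, hKA, hAG, hAi, hKn, hKc, hAc, hKs⟩ := hM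
  obtain ⟨K', hK'⟩ : ∃ K' : Subgroup A.G, K' = K.subgroupOf A.G := ⟨_, rfl⟩
  obtain ⟨A', hA'⟩ : ∃ A' : Subgroup A.G, A' = A₁.subgroupOf A.G := ⟨_, rfl⟩
  have mK' : ∀ g : A.G, g ∈ K' ↔ g.1 ∈ K := by
    intro g
    rw [hK', Subgroup.mem_subgroupOf]
  have mA' : ∀ g : A.G, g ∈ A' ↔ g.1 ∈ A₁ := by
    intro g
    rw [hA', Subgroup.mem_subgroupOf]
  have nK' : K'.Normal := ⟨fun n hn g => (mK' _).2 (hKn g.1 g.2 n.1 ((mK' n).1 hn))⟩
  have cK' : ∀ x ∈ K', ∀ y ∈ K', x * y = y * x := fun x hx y hy =>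
    Subtype.ext (hKc x.1 ((mK' x).1 hx) y.1 ((mK' y).1 hy))
  obtain ⟨J, hJ⟩ : ∃ J : Subgroup A.G, J = (actH A).ker ⊓ β.ker := ⟨_, rfl⟩
  have nJ : J.Normal := by
    rw [hJ]
    infer_instance
  have fJ : J.FiniteIndex := by
    rw [hJ]
    have : (actH A).ker.FiniteIndex := inferInstance
    have : β.ker.FiniteIndex := inferInstance
    infer_instance
  obtain ⟨K₀, hK₀⟩ : ∃ K₀ : Subgroup A.G, K₀ = K' ⊓ J := ⟨_, rfl⟩
  have nK₀ : K₀.Normal := by
    rw [hK₀]
    infer_instance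
  have leK : K₀ ≤ K' := by
    rw [hK₀]
    exact inf_le_left
  have leJ : K₀ ≤ J := by
    rw [hK₀]
    exact inf_le_right
  have hrel : K₀.relIndex K' ≠ 0 := by
    rw [hK₀, Subgroup.inf_relIndex_left]
    have : J.IsFiniteRelIndex K' := Subgroup.isFiniteRelIndex_of_finiteIndex
    exact Subgroup.relIndex_ne_zero
  have hFG : Group.FG A.G := by
    rw [Group.fg_iff]
    exact ⟨Set.range (gm A), c3, Set.finite_range _⟩
  obtain ⟨hfp, A₂, hA₂, hA₂i, hA₂c⟩ := hFPQ A.G K₀ K' A' hFG leK hrel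
    (fun x hx => (mA' x).2 (hKA ((mK' x).1 hx))) (by rw [hA']; exact hAi) (by
      rw [Subgroup.commutator_le]
      intro x hx y hy
      rw [mK']
      exact hAc x.1 ((mA' x).1 hx) y.1 ((mA' y).1 hy))
  obtain ⟨R, L, r1, r2, r3, r4⟩ := pres2 hCG hNOE (gm A) hsurj K₀ A₂
    (fun x hx y hy => cK' x (leK hx) y (leK hy)) hfp hA₂ hA₂i hA₂c
  -- (1)
  have s1 : ∀ u v, ev (gm A) u = ev (gm A) v → EqvS R L u v := by
    intro u v h
    have h1 : EqvS R L (iw v ++ u) [] := r3 _ (by rw [ev_app, ev_iw, h, inv_mul_cancel])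
    have hE := EqvS.cong R L
    have h2 : EqvS R L (iw v ++ v) [] := hE.iw_mul v
    exact hE.cancel (p := iw v) (h1.trans h2.symm)
  -- (2)
  have s2 : ∀ u v, (ev (gm A) v)⁻¹ * ev (gm A) u ∈ K₀ → Eqv (R ++ L) u v := by
    intro u v h
    have h1 : Eqv (R ++ L) (iw v ++ u) [] := r4 _ (by rw [ev_app, ev_iw]; exact h)
    exact Eqv.cancel (p := iw v) (h1.trans (Eqv.iw_mul v).symm)
  -- (3)
  have hfinq : Finite (K' ⧸ K₀.subgroupOf K') := by
    have : (K₀.subgroupOf K').FiniteIndex := ⟨hrel⟩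
    infer_instance
  obtain ⟨Y, hY1, hY2⟩ : ∃ Y : List (List (S (Fin m))), (∀ y ∈ Y, ev (gm A) y ∈ K') ∧
      ∀ x, ev (gm A) x ∈ K' → ∃ y ∈ Y, Eqv (R ++ L) x y := by
    have := Fintype.ofFinite (K' ⧸ K₀.subgroupOf K')
    refine ⟨(Finset.univ : Finset (K' ⧸ K₀.subgroupOf K')).toList.map
      (fun c => wd A (Quotient.out c).1), ?_, ?_⟩
    · intro y hy
      obtain ⟨c, -, rfl⟩ := List.mem_map.1 hy
      rw [hwd]
      exact (Quotient.out c).2
    · intro x hx
      refine ⟨_, List.mem_map.2 ⟨(QuotientGroup.mk ⟨_, hx⟩ : K' ⧸ K₀.subgroupOf K'),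
        Finset.mem_toList.2 (Finset.mem_univ _), rfl⟩, s2 _ _ ?_⟩
      rw [hwd]
      have h1 := QuotientGroup.out_eq' (QuotientGroup.mk ⟨_, hx⟩ : K' ⧸ K₀.subgroupOf K')
      rw [QuotientGroup.eq, Subgroup.mem_subgroupOf] at h1
      exact h1
  -- sections of elements of `K'`
  have sK : ∀ (g : A.G) (a : Fin d), actH A g a = a → (g ∈ K' ↔ se A g a ∈ K') := by
    intro g a hg
    rw [mK', mK']
    apply hKs g.1 g.2 _ (se A g a).2 a
    intro w
    rw [g_apply, ← actH_apply, hg]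
  have conj1 : ∀ g x : A.G, g * x * g⁻¹ ∈ K' ↔ x ∈ K' := by
    intro g x
    constructor
    · intro h
      have h1 := nK'.conj_mem _ h g⁻¹
      have h2 : g⁻¹ * (g * x * g⁻¹) * g⁻¹⁻¹ = x := by group
      rwa [h2] at h1
    · intro h
      exact nK'.conj_mem _ h g
  have hout : ∀ q a, actH A (gm A q) a = A.out q a := by
    intro q a
    rw [actH_apply, ac_val A (gm A q) [(q, true)] (val_one A q)]
    rfl
  have hval : ∀ w, A.val w = (ev (gm A) w).1 := fun w => (ev_gm A w).symm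
  have hltw : ∀ w a, A.toWA.ltw w a = actH A (ev (gm A) w) a := by
    intro w a
    rw [actH_apply, ac_val A (ev (gm A) w) w (hval w)]
  have hscw : ∀ w a, ev (gm A) (A.toWA.scw w a) = se A (ev (gm A) w) a := by
    intro w a
    apply Subtype.ext
    rw [se_val A (ev (gm A) w) w (hval w), ev_gm]
  refine ⟨R, L, Y, k, B, t, l, ⟨?_, ?_, ?_⟩, ⟨?_, ?_⟩, ⟨?_, ?_⟩, ?_⟩
  · intro y hy q b
    apply hY2
    have h1 : ev (gm A) ([(q, b)] ++ (y ++ [(q, !b)])) =
        ev (gm A) [(q, b)] * ev (gm A) y * (ev (gm A) [(q, b)])⁻¹ := by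
      have h2 : [(q, !b)] = iw [(q, b)] := rfl
      rw [ev_app, ev_app, h2, ev_iw, mul_assoc]
    rw [h1, conj1]
    exact hY1 y hy
  · intro y hy y' hy'
    apply s1
    rw [ev_app, ev_app]
    exact cK' _ (hY1 y hy) _ (hY1 y' hy')
  · intro y hy s hs
    apply s1
    rw [ev_app, ev_app]
    exact cK' _ (hY1 y hy) _ (leK (r2 s hs))
  · intro r hr a
    have h1 : A.val r = 1 := by
      rw [hval, r1 r hr]
      rfl
    refine ⟨A.ltw_of_val_eq_one r h1 a, r3 _ ?_⟩
    apply Subtype.ext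
    rw [ev_gm]
    exact A.scw_of_val_eq_one r h1 a
  · intro s hs a
    have h1 : actH A (ev (gm A) s) a = a := by
      have h2 := leJ (r2 s hs)
      rw [hJ] at h2
      have h3 : actH A (ev (gm A) s) = 1 := (Subgroup.mem_inf.1 h2).1
      rw [h3]
      rfl
    refine ⟨by rw [hltw, h1], hY2 _ ?_⟩
    rw [hscw, ← sK _ _ h1]
    exact leK (r2 s hs)
  · intro r hr z
    exact ⟨(b1 r (r1 r hr) z).1, r3 _ (b1 r (r1 r hr) z).2⟩
  · intro s hs z
    have h1 : B.ltw s z = z := by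
      have h2 := leJ (r2 s hs)
      rw [hJ] at h2
      have h3 : β (ev (gm A) s) = 1 := (Subgroup.mem_inf.1 h2).2
      rw [← hβ, h3]
      rfl
    refine ⟨h1, hY2 _ ?_⟩
    obtain ⟨x, τ, hx, hτ⟩ := b2 s z h1
    rw [sK _ x hx, hτ]
    have h4 := (conj1 τ⁻¹ (ev (gm A) s)).2 (leK (r2 s hs))
    rwa [inv_inv] at h4
  · intro q a
    have h4 := b3 q a
    rw [hout] at h4
    refine ⟨h4.1, s1 _ _ ?_⟩
    rw [ev_app, ev_app, h4.2, ev_nil_word]

end Pool.Agent.Helper42.LN2
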